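import Pool.Agent.Y771.KF.Real

set_option autoImplicit false

/-!
# A wrapper of the general theorem of helper124 and helper771 for families of complex functions

For functions `f_(j y)`, analytic on connected sets `S_j` and, for each `j`, algebraically independent over `ℂ (z)`, the
tuples `x` in `k ^ n` for which `π` and the numbers `f_(j y) (x_j)` satisfy an approximate relation lie on few hypersurfaces.
-/

open Filter Topology Height Height.AdmissibleAbsValues MvPolynomial Pool.Agent.Y124 Pool.Agent.Y771.KF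
  Pool.Agent.TH21.MS

namespace Pool.Agent.Y627.KW

variable {k : Type} [Field k] [NumberField k]

/-- the numbers `π` and `f_(j y) (x_j)` -/
noncomputable def numW (σ : k →+* ℂ) {κ : Type} {n : ℕ} (f : Fin n → κ → ℂ → ℂ) (x : Fin n → k)
    (w : Option (Fin n × κ)) : ℂ :=
  w.elim (Real.pi : ℂ) fun q => f q.1 q.2 (σ (x q.1))

/-- the exceptional tuples -/
def ExcW (σ : k →+* ℂ) {κ : Type} {n : ℕ} (d : ℕ) (f : Fin n → κ → ℂ → ℂ) (K : Fin n → Set ℂ)
    (A B T : ℝ) : Set (Fin n → k) :=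
  {x | (∀ j, σ (x j) ∈ K j ∧ mulHeight₁ (x j) ≤ T) ∧
    ∃ P : MvPolynomial (Option (Fin n × κ)) k, P ≠ 0 ∧ (∀ i, P.degreeOf i ≤ d) ∧
      (∀ e, mulHeight₁ (P.coeff e) ≤ T ^ A) ∧ ‖eval₂ σ (numW σ f x) P‖ ≤ T ^ (-B)}

theorem ExcW_sub (σ : k →+* ℂ) {κ : Type} {n : ℕ} (d : ℕ) (f : Fin n → κ → ℂ → ℂ) (K : Fin n → Set ℂ)
    (A B T : ℝ) : ExcW σ d f K A B T ⊆
      ExcK σ f (fun _ : Unit => Real.pi) K d A B T := by
  rintro x ⟨hx, P, hP0, hPd, hPc, hPs⟩
  refine ExcK_of_rename (Equiv.optionEquivSumPUnit (Fin n × κ)) σ _ _ _ d A B T x hx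
    (numW σ f x) ?_ P hP0 hPd hPc hPs
  intro w
  cases w with
  | none => simp [numW]
  | some w => simp [numW]

/-- the counting theorem -/
theorem main (σ : k →+* ℂ) {κ : Type} [Fintype κ] [DecidableEq κ] (n d : ℕ) (hn : 1 ≤ n)
    (f : Fin n → κ → ℂ → ℂ) (S K : Fin n → Set ℂ) (hS : ∀ j, IsPreconnected (S j))
    (hK : ∀ j, IsCompact (K j)) (hKS : ∀ j, K j ⊆ S j)
    (han : ∀ j y, AnalyticOnNhd ℂ (f j y) (S j)) (hind : ∀ j, AIndepS (f j) (S j))
    (A ε : ℝ) (hε : 0 < ε) :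
    ∃ (D : ℕ) (B C : ℝ), ∀ T : ℝ, 1 ≤ T →
      (∃ Φ : Finset (MvPolynomial (Fin n) k), (Φ.card : ℝ) ≤ C * T ^ ε ∧ (∀ R ∈ Φ, R ≠ 0 ∧ R.totalDegree ≤ D) ∧
        ∀ x ∈ ExcW σ d f K A B T, ∃ R ∈ Φ, eval x R = 0) ∧ (ExcW σ d f K A B T).Finite ∧
      ((ExcW σ d f K A B T).ncard : ℝ) ≤ C * T ^ ε * ({x : k | mulHeight₁ x ≤ T}.ncard : ℝ) ^ (n - 1) := by
  classical
  have hnn : Nonempty (Fin n) := ⟨⟨0, hn⟩⟩
  obtain ⟨D, B, C, hC, hcov⟩ := stdK (𝕜 := ℂ) σ σ (fun a => rfl) f (fun _ : Unit => Real.pi) S K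
    hS hKS hK han hind goodXi_pi d A ε hε
  obtain ⟨C', hC'⟩ := finish hn ε D C hC (fun T => ExcW σ d f K A B T) (fun T _ t ht j => (ht.1 j).2)
    (fun T hT => (hcov T hT).mono le_rfl le_rfl (ExcW_sub σ d f K A B T))
  exact ⟨D, B, C', hC'⟩

/-- independence from lower bounds at infinity of the real restrictions -/
theorem indep_of_LB {κ : Type} [Fintype κ] [DecidableEq κ] (u : κ → ℝ → ℝ) (h : ℝ → ℝ) (a0 : ℝ)
    (han : ∀ y, AnalyticOnNhd ℝ (u y) (Set.Ici a0)) (hLB : LB u h) (f : κ → ℂ → ℂ) (S : Set ℂ)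
    (hS : ∀ t : ℝ, a0 ≤ t → (t : ℂ) ∈ S) (hf : ∀ y, ∀ t : ℝ, a0 ≤ t → f y (t : ℂ) = ((u y t : ℝ) : ℂ)) :
    AIndepS f S := by
  have hA : AIndep u a0 (a0 + 1) :=
    aindep_of_rindep _ _ _ fun d => rindep_of_LB u h a0 han hLB d a0 (a0 + 1) le_rfl (by linarith)
  refine aindepS_of_real u a0 (a0 + 1) hA f S 1 one_ne_zero (fun _ => 1) (fun _ => one_ne_zero) ?_ ?_
  · intro t ht
    rw [one_mul]
    exact hS t ht.1
  · intro y t ht
    rw [one_mul, one_mul]
    exact hf y t ht.1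

/-- the growth condition for a chain of functions each of which grows faster than the previous ones -/
theorem growth_chain {m : ℕ} (L : Fin m → ℝ → ℝ) (h0 : ∀ i, Tendsto (fun t => L i t / Real.log t) atTop atTop)
    (h1 : ∀ i j : Fin m, i < j → Tendsto (fun t => L i t / L j t) atTop (𝓝 0)) (c : Fin m → ℤ) (hc : c ≠ 0) :
    Tendsto (fun t => |∑ i, (c i : ℝ) * L i t| / Real.log t) atTop atTop := by
  classical
  -- the largest index with a nonzero coefficient
  obtain ⟨i0, hi0⟩ : ∃ i, c i ≠ 0 := by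
    by_contra hcon
    push Not at hcon
    exact hc (funext hcon)
  have hne : (Finset.univ.filter fun i => c i ≠ 0).Nonempty := ⟨i0, by simp [hi0]⟩
  set M := (Finset.univ.filter fun i => c i ≠ 0).max' hne with hM
  have hcM : c M ≠ 0 := by
    have := Finset.max'_mem _ hne
    rw [← hM] at this
    exact (Finset.mem_filter.1 this).2
  have hgt : ∀ i, M < i → c i = 0 := by
    intro i hi
    by_contra hci
    exact absurd (Finset.le_max' _ i (by simp [hci])) (not_le.2 hi)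
  have hpos : ∀ i, ∀ᶠ t in atTop, 0 < L i t := by
    intro i
    filter_upwards [(h0 i).eventually_gt_atTop 0, Filter.eventually_gt_atTop 1] with t h2 h3
    have h4 := Real.log_pos h3
    by_contra h5
    push Not at h5
    have := div_nonpos_of_nonpos_of_nonneg h5 h4.le
    linarith
  have hr : Tendsto (fun t => (∑ i, (c i : ℝ) * L i t) / L M t) atTop (𝓝 (c M : ℝ)) := by
    have h2 : Tendsto (fun t => ∑ i, (c i : ℝ) * (L i t / L M t)) atTop
        (𝓝 (∑ i, if i = M then (c M : ℝ) else 0)) := by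
      refine tendsto_finsetSum _ fun i _ => ?_
      rcases lt_trichotomy i M with h3 | h3 | h3
      · rw [if_neg h3.ne]
        simpa using (h1 i M h3).const_mul (c i : ℝ)
      · rw [h3, if_pos rfl]
        refine tendsto_const_nhds.congr' ?_
        filter_upwards [hpos M] with t ht
        rw [div_self ht.ne', mul_one]
      · rw [if_neg h3.ne', hgt i h3]
        simp
    rw [Finset.sum_ite_eq' Finset.univ M (fun _ => (c M : ℝ)), if_pos (Finset.mem_univ M)] at h2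
    refine h2.congr fun t => ?_
    rw [Finset.sum_div]
    refine Finset.sum_congr rfl fun i _ => ?_
    ring
  have hr2 := hr.abs
  have hcM' : (0 : ℝ) < |(c M : ℝ)| := abs_pos.2 (by exact_mod_cast hcM)
  have h3 := (h0 M).atTop_mul_pos hcM' hr2
  refine h3.congr' ?_
  filter_upwards [hpos M] with t ht
  rw [abs_div, abs_of_pos ht]
  field_simp

end Pool.Agent.Y627.KW
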