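import Pool.Agent.Y627.KW.Iter

set_option autoImplicit false

/-!
# Growth chains, power towers
-/

open Filter Topology Height Height.AdmissibleAbsValues MvPolynomial Pool.Agent.Y124 Pool.Agent.Y771.KF
  Pool.Agent.TH21.MS

namespace Pool.Agent.Y627.KW

/-- the growth condition for a chain of functions each of which grows faster than the previous ones -/
theorem growth_chain' {κ : Type} [Fintype κ] (r : κ → ℕ) (hr : Function.Injective r) (L : κ → ℝ → ℝ)
    (h0 : ∀ i, Tendsto (fun t => L i t / Real.log t) atTop atTop)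
    (h1 : ∀ i j : κ, r i < r j → Tendsto (fun t => L i t / L j t) atTop (𝓝 0)) (c : κ → ℤ) (hc : c ≠ 0) :
    Tendsto (fun t => |∑ i, (c i : ℝ) * L i t| / Real.log t) atTop atTop := by
  classical
  -- the largest index with a nonzero coefficient
  obtain ⟨i0, hi0⟩ : ∃ i, c i ≠ 0 := by
    by_contra hcon
    push Not at hcon
    exact hc (funext hcon)
  obtain ⟨M, hMm, hMax⟩ := Finset.exists_max_image (Finset.univ.filter fun i => c i ≠ 0) r
    ⟨i0, by simp [hi0]⟩
  have hcM : c M ≠ 0 := (Finset.mem_filter.1 hMm).2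
  have hgt : ∀ i, r M < r i → c i = 0 := by
    intro i hi
    by_contra hci
    exact absurd (hMax i (by simp [hci])) (not_le.2 hi)
  have hpos : ∀ i, ∀ᶠ t in atTop, 0 < L i t := by
    intro i
    filter_upwards [(h0 i).eventually_gt_atTop 0, Filter.eventually_gt_atTop 1] with t h2 h3
    have h4 := Real.log_pos h3
    by_contra h5
    push Not at h5
    have := div_nonpos_of_nonpos_of_nonneg h5 h4.le
    linarith
  have hr : Tendsto (fun t => (∑ i, (c i : ℝ) * L i t) / L M t) atTop (𝓝 (c M : ℝ)) := by
    have h2 : Tendsto (fun t => ∑ i, (c i : ℝ) * (L i t / L M t)) atTop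
        (𝓝 (∑ i, if i = M then (c M : ℝ) else 0)) := by
      refine tendsto_finsetSum _ fun i _ => ?_
      rcases lt_trichotomy (r i) (r M) with h3 | h3 | h3
      · rw [if_neg (fun e => h3.ne (by rw [e]))]
        simpa using (h1 i M h3).const_mul (c i : ℝ)
      · rw [hr h3, if_pos rfl]
        refine tendsto_const_nhds.congr' ?_
        filter_upwards [hpos M] with t ht
        rw [div_self ht.ne', mul_one]
      · rw [if_neg (fun e => h3.ne' (by rw [e])), hgt i h3]
        simp
    rw [Finset.sum_ite_eq' Finset.univ M (fun _ => (c M : ℝ)), if_pos (Finset.mem_univ M)] at h2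
    refine h2.congr fun t => ?_
    rw [Finset.sum_div]
    refine Finset.sum_congr rfl fun i _ => ?_
    ring
  have hr2 := hr.abs
  have hcM' : (0 : ℝ) < |(c M : ℝ)| := abs_pos.2 (by exact_mod_cast hcM)
  have h3 := (h0 M).atTop_mul_pos hcM' hr2
  refine h3.congr' ?_
  filter_upwards [hpos M] with t ht
  rw [abs_div, abs_of_pos ht]
  field_simp

end Pool.Agent.Y627.KW
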