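import Mathlib

set_option autoImplicit false

/-!
# Exponential polynomials on the natural numbers
-/

open Polynomial

namespace Pool.Agent.Y627.KW

/-- the operator `F (N) ↦ F (N + 1) - c F (N)` on `F (N) = q (N) χ ^ N` -/
noncomputable def dop (c χ : ℂ) (q : ℂ[X]) : ℂ[X] := C χ * q.comp (X + 1) - C c * q

theorem dop_eval (c χ : ℂ) (q : ℂ[X]) (N : ℂ) : (dop c χ q).eval N = χ * q.eval (N + 1) - c * q.eval N := by
  simp [dop, eval_comp]

theorem dop_zero (c χ : ℂ) : dop c χ 0 = 0 := by simp [dop]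

theorem comp_coeff (q : ℂ[X]) : (q.comp (X + 1)).coeff q.natDegree = q.leadingCoeff := by
  have h1 : (X + 1 : ℂ[X]).natDegree = 1 := natDegree_X_add_C 1
  have h2 : (q.comp (X + 1)).natDegree = q.natDegree := by rw [natDegree_comp, h1, mul_one]
  have h3 : (q.comp (X + 1)).leadingCoeff = q.leadingCoeff := by
    rw [leadingCoeff_comp (by rw [h1]; exact one_ne_zero)]
    have : (X + 1 : ℂ[X]).leadingCoeff = 1 := leadingCoeff_X_add_C 1
    rw [this, one_pow, mul_one]
  rw [← h2, coeff_natDegree, h3]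

theorem comp_natDegree (q : ℂ[X]) : (q.comp (X + 1)).natDegree = q.natDegree := by
  have h1 : (X + 1 : ℂ[X]).natDegree = 1 := natDegree_X_add_C 1
  rw [natDegree_comp, h1, mul_one]

theorem dop_coeff (c χ : ℂ) (q : ℂ[X]) : (dop c χ q).coeff q.natDegree = (χ - c) * q.leadingCoeff := by
  rw [dop, coeff_sub, coeff_C_mul, coeff_C_mul, comp_coeff, coeff_natDegree]
  ring

theorem dop_natDegree_le (c χ : ℂ) (q : ℂ[X]) : (dop c χ q).natDegree ≤ q.natDegree := by
  refine (natDegree_sub_le _ _).trans (max_le ?_ ?_)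
  · exact (natDegree_C_mul_le _ _).trans (comp_natDegree q).le
  · exact natDegree_C_mul_le _ _

theorem dop_ne (c χ : ℂ) (h : χ ≠ c) (q : ℂ[X]) (hq : q ≠ 0) : dop c χ q ≠ 0 := by
  intro h0
  have h1 := dop_coeff c χ q
  rw [h0, coeff_zero] at h1
  exact mul_ne_zero (sub_ne_zero.2 h) (leadingCoeff_ne_zero.2 hq) h1.symm

open Classical in
/-- the measure -/
noncomputable def wq (q : ℂ[X]) : ℕ := if q = 0 then 0 else q.natDegree + 1

theorem wq_le (c χ : ℂ) (q : ℂ[X]) : wq (dop c χ q) ≤ wq q := by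
  unfold wq
  by_cases hq : q = 0
  · rw [hq, dop_zero]
  · rw [if_neg hq]
    split_ifs with h
    · exact Nat.zero_le _
    · exact Nat.succ_le_succ (dop_natDegree_le c χ q)

theorem wq_lt (c : ℂ) (q : ℂ[X]) (hq : q ≠ 0) : wq (dop c c q) < wq q := by
  unfold wq
  rw [if_neg hq]
  split_ifs with h
  · exact Nat.succ_pos _
  · refine Nat.succ_lt_succ (lt_of_le_of_ne (dop_natDegree_le c c q) ?_)
    intro h1
    have h2 := dop_coeff c c q
    rw [sub_self, zero_mul, ← h1, coeff_natDegree] at h2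
    exact h (leadingCoeff_eq_zero.1 h2)

/-- an exponential polynomial with distinct bases vanishing on `ℕ` is zero -/
theorem expN {ι : Type*} (I : Finset ι) (χ : ι → ℂ) (hχ : ∀ i ∈ I, χ i ≠ 0)
    (hinj : ∀ i ∈ I, ∀ j ∈ I, i ≠ j → χ i ≠ χ j) : ∀ (n : ℕ) (q : ι → ℂ[X]), ∑ i ∈ I, wq (q i) ≤ n →
    (∀ N : ℕ, ∑ i ∈ I, (q i).eval (N : ℂ) * χ i ^ N = 0) → ∀ i ∈ I, q i = 0 := by
  classical
  intro n
  induction n with
  | zero =>
    intro q hn _ i hi
    have h1 : wq (q i) = 0 := by
      have := Finset.single_le_sum (f := fun i => wq (q i)) (fun _ _ => Nat.zero_le _) hi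
      omega
    unfold wq at h1
    by_contra h2
    rw [if_neg h2] at h1
    omega
  | succ n ih =>
    intro q hn h i0 hi0
    by_contra hq0
    -- apply the operator for `i0`
    have h1 : ∀ i ∈ I, dop (χ i0) (χ i) (q i) = 0 := by
      refine ih (fun i => dop (χ i0) (χ i) (q i)) ?_ ?_
      · have h2 : ∑ i ∈ I, wq (dop (χ i0) (χ i) (q i)) < ∑ i ∈ I, wq (q i) :=
          Finset.sum_lt_sum (fun i _ => wq_le _ _ _) ⟨i0, hi0, wq_lt _ _ hq0⟩
        omega
      · intro N
        have h2 := h (N + 1)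
        have h3 := h N
        have h4 : ∑ i ∈ I, (dop (χ i0) (χ i) (q i)).eval (N : ℂ) * χ i ^ N =
            ∑ i ∈ I, (q i).eval ((N + 1 : ℕ) : ℂ) * χ i ^ (N + 1) -
              χ i0 * ∑ i ∈ I, (q i).eval (N : ℂ) * χ i ^ N := by
          rw [Finset.mul_sum, ← Finset.sum_sub_distrib]
          refine Finset.sum_congr rfl fun i _ => ?_
          rw [dop_eval]
          push_cast
          ring
        rw [h4, h2, h3]
        ring
    -- all the others vanish
    have h2 : ∀ i ∈ I, i ≠ i0 → q i = 0 := by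
      intro i hi hne
      by_contra hq
      exact dop_ne _ _ (hinj i hi i0 hi0 hne) _ hq (h1 i hi)
    apply hq0
    refine eq_zero_of_infinite_isRoot _ (Set.Infinite.mono (s := Set.range fun m : ℕ => (m : ℂ)) ?_
      (Set.infinite_range_of_injective Nat.cast_injective))
    rintro _ ⟨N, rfl⟩
    have h3 := h N
    rw [Finset.sum_eq_single i0 (fun i hi hne => by rw [h2 i hi hne]; simp) (fun h => absurd hi0 h)] at h3
    exact (mul_eq_zero.1 h3).resolve_right (pow_ne_zero _ (hχ i0 hi0))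

end Pool.Agent.Y627.KW
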