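import Pool.Agent.Y627.KW.Main
import Pool.Agent.Y627.KW.ExpN
import Pool.Agent.TH818.AP.Wp

set_option autoImplicit false

/-!
# Algebraic independence of `z`, `℘ (z)`, `ζ (z)` and exponentials
-/

open Filter Topology MvPolynomial H667R3 Pool.Agent.TH818.AP

namespace Pool.Agent.Y627.KW

/-- the functions `exp (λ_l z)`, `z`, `℘ (z)`, `ζ (z)` -/
noncomputable def ev4 {r : ℕ} (L : PeriodPair) (lam : Fin r → ℂ) (z : ℂ) : Fin r ⊕ Fin 3 → ℂ :=
  Sum.elim (fun l => Complex.exp (lam l * z)) ![z, L.weierstrassP z, zeta L z]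

/-- a lattice vector at which finitely many nonzero exponents give no trivial character -/
theorem exists_vec (L : PeriodPair) (M : Finset ℂ) (hM : ∀ μ ∈ M, μ ≠ 0) :
    ∃ w ∈ L.lattice, ∀ μ ∈ M, Complex.exp (μ * w) ≠ 1 := by
  classical
  have hsub : ∀ μ ∈ M, {N : ℕ | Complex.exp (μ * (L.ω₁ + N * L.ω₂)) = 1}.Subsingleton := by
    intro μ hμ N hN N' hN'
    by_contra hne
    have hN1 : Complex.exp (μ * (L.ω₁ + N * L.ω₂)) = 1 := hN
    have hN2 : Complex.exp (μ * (L.ω₁ + N' * L.ω₂)) = 1 := hN'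
    obtain ⟨a, ha⟩ := Complex.exp_eq_one_iff.1 hN1
    obtain ⟨b, hb⟩ := Complex.exp_eq_one_iff.1 hN2
    have h1 : μ * ((N : ℂ) - N') * L.ω₂ = ((a - b : ℤ) : ℂ) * (2 * Real.pi * Complex.I) := by
      push_cast
      linear_combination ha - hb
    have hab : (a - b : ℤ) ≠ 0 := by
      intro h0
      rw [h0] at h1
      have hw2 : L.ω₂ ≠ 0 := by
        intro h
        apply L.ω₂_div_two_notMem_lattice
        rw [h, zero_div]
        exact zero_mem _
      have h2 : μ * ((N : ℂ) - N') * L.ω₂ ≠ 0 := by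
        refine mul_ne_zero (mul_ne_zero (hM μ hμ) ?_) hw2
        rw [sub_ne_zero]
        exact_mod_cast hne
      apply h2
      rw [h1]
      simp
    -- `(a - b) (ω₁ + N ω₂) = a (N - N') ω₂`
    have h3 : ((a - b : ℤ) : ℂ) * (L.ω₁ + N * L.ω₂) = (a : ℂ) * (((N : ℂ) - N') * L.ω₂) := by
      have h4 : (2 * Real.pi * Complex.I) ≠ 0 := by
        have := Real.pi_ne_zero
        simp [this, Complex.I_ne_zero]
      have h5 : μ * (((a - b : ℤ) : ℂ) * (L.ω₁ + N * L.ω₂)) = μ * ((a : ℂ) * (((N : ℂ) - N') * L.ω₂)) := by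
        linear_combination ((a - b : ℤ) : ℂ) * ha - (a : ℂ) * h1
      exact mul_left_cancel₀ (hM μ hμ) h5
    have hind := L.indep
    rw [LinearIndependent.pair_iff] at hind
    have h6 := hind ((a - b : ℤ) : ℝ) (((a - b : ℤ) : ℝ) * N - (a : ℝ) * ((N : ℝ) - N')) (by
      simp only [Complex.real_smul]
      push_cast at h3 ⊢
      linear_combination h3)
    exact hab (by exact_mod_cast h6.1)
  have hfin : (⋃ μ ∈ M, {N : ℕ | Complex.exp (μ * (L.ω₁ + N * L.ω₂)) = 1}).Finite :=
    Set.Finite.biUnion M.finite_toSet fun μ hμ => (hsub μ hμ).finite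
  obtain ⟨N, hN⟩ := hfin.infinite_compl.nonempty
  refine ⟨L.ω₁ + N * L.ω₂, ?_, ?_⟩
  · refine add_mem L.ω₁_mem_lattice ?_
    exact_mod_cast intCast_mul_mem L L.ω₂_mem_lattice (N : ℤ)
  · intro μ hμ h
    apply hN
    simp only [Set.mem_iUnion]
    exact ⟨μ, hμ, h⟩

/-- the part of the exponent at the exponentials -/
def pe {r : ℕ} (s : Fin r ⊕ Fin 3 →₀ ℕ) : Fin r → ℕ := fun l => s (Sum.inl l)

/-- the exponent with given parts -/
noncomputable def mk4 {r : ℕ} (ν : Fin r → ℕ) (i j k : ℕ) : Fin r ⊕ Fin 3 →₀ ℕ :=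
  Finsupp.equivFunOnFinite.symm (Sum.elim ν ![i, k, j])

theorem mk4_pe {r : ℕ} (s : Fin r ⊕ Fin 3 →₀ ℕ) :
    mk4 (pe s) (s (Sum.inr 0)) (s (Sum.inr 2)) (s (Sum.inr 1)) = s := by
  ext w
  rcases w with l | i
  · rfl
  · fin_cases i <;> rfl

theorem ell_core {r : ℕ} (L : PeriodPair) (lam : Fin r → ℂ)
    (hlam : ∀ c : Fin r → ℤ, ∑ l, (c l : ℂ) * lam l = 0 → c = 0) (P : MvPolynomial (Fin r ⊕ Fin 3) ℂ)
    (hP : ∀ z, z ∉ L.lattice → eval (ev4 L lam z) P = 0) : P = 0 := by
  classical
  set I : Finset (Fin r → ℕ) := P.support.image pe with hI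
  set μ : (Fin r → ℕ) → ℂ := fun ν => ∑ l, (ν l : ℂ) * lam l with hμ
  have hμinj : ∀ ν ν', μ ν = μ ν' → ν = ν' := by
    intro ν ν' h
    have h1 := hlam (fun l => (ν l : ℤ) - (ν' l : ℤ)) (by
      simp only [hμ] at h
      push_cast
      simp only [sub_mul, Finset.sum_sub_distrib]
      linear_combination h)
    funext l
    have := congrFun h1 l
    simp only [Pi.zero_apply] at this
    omega
  -- separation of the exponentials
  have sep : ∀ z, z ∉ L.lattice → ∀ ν ∈ I, ∑ s ∈ P.support with pe s = ν,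
      P.coeff s * (z ^ s (Sum.inr 0) * L.weierstrassP z ^ s (Sum.inr 1) * zeta L z ^ s (Sum.inr 2)) = 0 := by
    intro z hz
    obtain ⟨w, hw, hw1⟩ := exists_vec L ((I ×ˢ I).filter (fun p => p.1 ≠ p.2) |>.image fun p => μ p.1 - μ p.2) (by
      intro m hm
      rw [Finset.mem_image] at hm
      obtain ⟨p, hp, rfl⟩ := hm
      rw [Finset.mem_filter] at hp
      rw [sub_ne_zero]
      exact fun h => hp.2 (hμinj _ _ h))
    let q : (Fin r → ℕ) → Polynomial ℂ := fun ν => ∑ s ∈ P.support with pe s = ν,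
      Polynomial.C (P.coeff s * Complex.exp (μ ν * z)) * ((Polynomial.C z + Polynomial.C w * Polynomial.X) ^ s (Sum.inr 0) *
        Polynomial.C (L.weierstrassP z) ^ s (Sum.inr 1) *
        (Polynomial.C (zeta L z) + Polynomial.C (eta L w) * Polynomial.X) ^ s (Sum.inr 2))
    have hq := expN I (fun ν => Complex.exp (μ ν * w)) (fun _ _ => Complex.exp_ne_zero _) (by
      intro ν hν ν' hν' hne h
      apply hw1 (μ ν - μ ν') (Finset.mem_image.2 ⟨(ν, ν'), Finset.mem_filter.2
        ⟨Finset.mem_product.2 ⟨hν, hν'⟩, hne⟩, rfl⟩)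
      rw [sub_mul, Complex.exp_sub, h, div_self (Complex.exp_ne_zero _)]) _ q le_rfl (by
      intro N
      have hNw : (N : ℂ) * w ∈ L.lattice := by exact_mod_cast intCast_mul_mem L hw (N : ℤ)
      have hz' : z + N * w ∉ L.lattice := fun h => hz ((add_mem_iff L hNw).1 h)
      have h1 := hP _ hz'
      rw [eval_eq'] at h1
      rw [← h1]
      have h2 : ∀ s ∈ P.support, pe s ∈ I := fun s hs => Finset.mem_image_of_mem _ hs
      rw [← Finset.sum_fiberwise_of_maps_to h2]
      refine Finset.sum_congr rfl fun ν _ => ?_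
      simp only [q]
      rw [Polynomial.eval_finsetSum, Finset.sum_mul]
      refine Finset.sum_congr rfl fun s hs => ?_
      have hpe : pe s = ν := (Finset.mem_filter.1 hs).2
      simp only [Polynomial.eval_mul, Polynomial.eval_pow, Polynomial.eval_add, Polynomial.eval_C, Polynomial.eval_X]
      rw [Fintype.prod_sum_type, Fin.prod_univ_three]
      have h3 : ∏ l : Fin r, ev4 L lam (z + N * w) (Sum.inl l) ^ s (Sum.inl l) =
          Complex.exp (μ ν * z) * Complex.exp (μ ν * w) ^ N := by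
        rw [← Complex.exp_nat_mul, ← Complex.exp_add]
        simp only [ev4, Sum.elim_inl, ← Complex.exp_nat_mul, ← Complex.exp_sum]
        congr 1
        simp only [hμ, Finset.sum_mul]
        rw [Finset.mul_sum, ← Finset.sum_add_distrib]
        refine Finset.sum_congr rfl fun l _ => ?_
        rw [← hpe]
        simp only [pe]
        ring
      rw [h3]
      have h4 : ev4 L lam (z + N * w) (Sum.inr 0) = z + w * N := by
        simp only [ev4, Sum.elim_inr, Matrix.cons_val_zero]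
        ring
      have h5 : ev4 L lam (z + N * w) (Sum.inr 1) = L.weierstrassP z := by
        simp only [ev4, Sum.elim_inr, Matrix.cons_val_one, Matrix.cons_val_zero]
        exact L.weierstrassP_add_coe z ⟨_, hNw⟩
      have h6 : ev4 L lam (z + N * w) (Sum.inr 2) = zeta L z + eta L w * N := by
        simp only [ev4, Sum.elim_inr, Matrix.cons_val_two, Matrix.tail_cons, Matrix.head_cons, Matrix.cons_val_one,
          Matrix.cons_val_zero]
        rw [zeta_add_coe L hz hNw]
        have := eta_zsmul L hw (N : ℤ)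
        push_cast at this
        rw [this]
        ring
      rw [h4, h5, h6]
      ring)
    intro ν hν
    have h1 := congrArg (Polynomial.eval (0 : ℂ)) (hq ν hν)
    simp only [q] at h1
    rw [Polynomial.eval_finsetSum] at h1
    simp only [Polynomial.eval_mul, Polynomial.eval_pow, Polynomial.eval_add, Polynomial.eval_C, Polynomial.eval_X,
      mul_zero, add_zero, Polynomial.eval_zero] at h1
    have h2 : Complex.exp (μ ν * z) * ∑ s ∈ P.support with pe s = ν,
      P.coeff s * (z ^ s (Sum.inr 0) * L.weierstrassP z ^ s (Sum.inr 1) * zeta L z ^ s (Sum.inr 2)) = 0 := by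
      rw [Finset.mul_sum, ← h1]
      refine Finset.sum_congr rfl fun s _ => ?_
      ring
    exact (mul_eq_zero.1 h2).resolve_left (Complex.exp_ne_zero _)
  -- the elliptic part
  by_contra hP0
  obtain ⟨s0, hs0⟩ := support_nonempty.2 hP0
  set ν := pe s0 with hν
  have hνI : ν ∈ I := Finset.mem_image_of_mem _ hs0
  set d := P.totalDegree with hd
  have hle : ∀ s ∈ P.support, ∀ o, s o ≤ d := fun s hs o =>
    (monomial_le_degreeOf o hs).trans (degreeOf_le_totalDegree P o)
  let a : Fin (d + 1) → Fin (d + 1) → Polynomial ℂ := fun i j =>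
    ∑ k ∈ Finset.range (d + 1), Polynomial.monomial k (P.coeff (mk4 ν i j k))
  have hu0 := L.ω₁_div_two_notMem_lattice
  have ha := uz L d a (L.ω₁ / 2) hu0 (by
    refine Filter.Eventually.frequently ?_
    have h1 : ∀ᶠ z in 𝓝[≠] (L.ω₁ / 2), z ∉ L.lattice :=
      mem_nhdsWithin_of_mem_nhds ((isOpen_compl L).mem_nhds hu0)
    filter_upwards [h1] with z hz
    rw [← sep z hz ν hνI]
    have h2 : ∀ i j : Fin (d + 1), (a i j).eval (L.weierstrassP z) * z ^ (i : ℕ) * zeta L z ^ (j : ℕ) =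
        ∑ k ∈ Finset.range (d + 1), (fun s : Fin r ⊕ Fin 3 →₀ ℕ => P.coeff s * (z ^ s (Sum.inr 0) *
          L.weierstrassP z ^ s (Sum.inr 1) * zeta L z ^ s (Sum.inr 2))) (mk4 ν i j k) := by
      intro i j
      simp only [a]
      rw [Polynomial.eval_finsetSum, Finset.sum_mul, Finset.sum_mul]
      refine Finset.sum_congr rfl fun k _ => ?_
      rw [Polynomial.eval_monomial]
      have e0 : mk4 ν i j k (Sum.inr 0) = i := rfl
      have e1 : mk4 ν i j k (Sum.inr 1) = k := rfl
      have e2 : mk4 ν i j k (Sum.inr 2) = j := rfl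
      rw [e0, e1, e2]
      ring
    simp only [h2]
    have h3 : ∀ F : (Fin r ⊕ Fin 3 →₀ ℕ) → ℂ, ∑ i : Fin (d + 1), ∑ j : Fin (d + 1),
        ∑ k ∈ Finset.range (d + 1), F (mk4 ν i j k) =
        ∑ p ∈ (Finset.univ : Finset (Fin (d + 1))) ×ˢ ((Finset.univ : Finset (Fin (d + 1))) ×ˢ Finset.range (d + 1)),
          F (mk4 ν p.1 p.2.1 p.2.2) := by
      intro F
      rw [Finset.sum_product]
      refine Finset.sum_congr rfl fun i _ => ?_
      rw [Finset.sum_product]
    refine (h3 (fun s : Fin r ⊕ Fin 3 →₀ ℕ => P.coeff s * (z ^ s (Sum.inr 0) *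
          L.weierstrassP z ^ s (Sum.inr 1) * zeta L z ^ s (Sum.inr 2)))).trans ?_
    rw [← Finset.sum_image (s := (Finset.univ : Finset (Fin (d + 1))) ×ˢ
        ((Finset.univ : Finset (Fin (d + 1))) ×ˢ Finset.range (d + 1)))
      (g := fun p : Fin (d + 1) × (Fin (d + 1) × ℕ) => mk4 ν p.1 p.2.1 p.2.2)
      (f := fun s : Fin r ⊕ Fin 3 →₀ ℕ => P.coeff s * (z ^ s (Sum.inr 0) *
          L.weierstrassP z ^ s (Sum.inr 1) * zeta L z ^ s (Sum.inr 2)))]
    · refine (Finset.sum_subset ?_ ?_).symm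
      · intro s hs
        obtain ⟨hs1, hs2⟩ := Finset.mem_filter.1 hs
        rw [Finset.mem_image]
        refine ⟨(⟨s (Sum.inr 0), Nat.lt_succ_of_le (hle s hs1 _)⟩, ⟨s (Sum.inr 2), Nat.lt_succ_of_le (hle s hs1 _)⟩,
          s (Sum.inr 1)), ?_, ?_⟩
        · simp only [Finset.mem_product, Finset.mem_univ, true_and, Finset.mem_range]
          exact Nat.lt_succ_of_le (hle s hs1 _)
        · simp only
          rw [← hs2, mk4_pe]
      · intro s hs hs2
        rw [Finset.mem_image] at hs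
        obtain ⟨p, -, rfl⟩ := hs
        have h4 : mk4 ν p.1 p.2.1 p.2.2 ∉ P.support := by
          intro h5
          apply hs2
          refine Finset.mem_filter.2 ⟨h5, ?_⟩
          funext l
          rfl
        rw [notMem_support_iff.1 h4, zero_mul]
    · intro x _ y _ hxy
      have e0 := DFunLike.congr_fun hxy (Sum.inr 0)
      have e1 := DFunLike.congr_fun hxy (Sum.inr 1)
      have e2 := DFunLike.congr_fun hxy (Sum.inr 2)
      have e0' : (x.1 : ℕ) = y.1 := e0
      have e1' : x.2.2 = y.2.2 := e1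
      have e2' : (x.2.1 : ℕ) = y.2.1 := e2
      exact Prod.ext (Fin.ext e0') (Prod.ext (Fin.ext e2') e1'))
  have h1 := congrFun (congrFun ha ⟨s0 (Sum.inr 0), Nat.lt_succ_of_le (hle s0 hs0 _)⟩)
    ⟨s0 (Sum.inr 2), Nat.lt_succ_of_le (hle s0 hs0 _)⟩
  have h2 := congrArg (fun q => Polynomial.coeff q (s0 (Sum.inr 1))) h1
  simp only [a, Polynomial.finsetSum_coeff, Polynomial.coeff_monomial, Pi.zero_apply, Polynomial.coeff_zero] at h2
  rw [Finset.sum_ite_eq' (Finset.range (d + 1)) (s0 (Sum.inr 1)),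
    if_pos (Finset.mem_range.2 (Nat.lt_succ_of_le (hle s0 hs0 _)))] at h2
  apply mem_support_iff.1 hs0
  rw [← mk4_pe s0]
  exact h2

/-- the functions are independent on any nonempty open set -/
theorem ell_core' {r : ℕ} (L : PeriodPair) (lam : Fin r → ℂ)
    (hlam : ∀ c : Fin r → ℤ, ∑ l, (c l : ℂ) * lam l = 0 → c = 0) (P : MvPolynomial (Fin r ⊕ Fin 3) ℂ)
    (z0 : ℂ) (hz0 : z0 ∉ L.lattice) (hP : ∃ᶠ z in 𝓝[≠] z0, eval (ev4 L lam z) P = 0) : P = 0 := by
  classical
  refine ell_core L lam hlam P ?_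
  have han : AnalyticOnNhd ℂ (fun z => eval (ev4 L lam z) P) (L.lattice : Set ℂ)ᶜ := by
    intro u hu
    have h0 : ∀ w, AnalyticAt ℂ (fun z => ev4 L lam z w) u := by
      rintro (l | i)
      · show AnalyticAt ℂ (fun z => Complex.exp (lam l * z)) u
        exact (analyticAt_const.mul analyticAt_id).cexp
      · fin_cases i
        · exact analyticAt_id
        · exact L.analyticOnNhd_weierstrassP u hu
        · exact ((differentiableOn_zeta L).analyticOnNhd (isOpen_compl L)) u hu
    simp only [eval_eq']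
    refine Finset.analyticAt_fun_sum _ fun s _ => AnalyticAt.mul analyticAt_const ?_
    exact Finset.analyticAt_fun_prod _ fun w _ => (h0 w).pow _
  have h1 := han.eqOn_zero_of_preconnected_of_frequently_eq_zero (isPreconnected_compl L) hz0 hP
  intro z hz
  exact h1 hz

end Pool.Agent.Y627.KW
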