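import Pool.Agent.Y627.KW.Ell

set_option autoImplicit false

/-!
# Independence of elliptic functions and exponentials: applications
-/

open Filter Topology MvPolynomial H667R3 Pool.Agent.TH818.AP Pool.Agent.Y124 Pool.Agent.Y771.KF

namespace Pool.Agent.Y627.KW

/-- independence along an injective change of the variable -/
theorem indep_of_inv {r : ℕ} (L : PeriodPair) (lam : Fin r → ℂ)
    (hlam : ∀ c : Fin r → ℤ, ∑ l, (c l : ℂ) * lam l = 0 → c = 0) {κ : Type} (f : κ → ℂ → ℂ) (S : Set ℂ)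
    (hS : IsOpen S) (hne : S.Nonempty) (p : ℂ → ℂ) (hp : ContinuousOn p S) (hinj : Set.InjOn p S)
    (hpL : ∀ t ∈ S, p t ∉ L.lattice) (e : Option κ → Fin r ⊕ Fin 3) (he : Function.Injective e)
    (hf : ∀ t ∈ S, ∀ o : Option κ, (o.elim t fun y => f y t) = ev4 L lam (p t) (e o)) : AIndepS f S := by
  classical
  intro P hP
  obtain ⟨t0, ht0⟩ := hne
  have h1 : rename e P = 0 := by
    refine ell_core' L lam hlam _ (p t0) (hpL t0 ht0) ?_
    have h2 : Tendsto p (𝓝[≠] t0) (𝓝[≠] (p t0)) := by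
      rw [tendsto_nhdsWithin_iff]
      refine ⟨((hp.continuousAt (hS.mem_nhds ht0)).tendsto).mono_left nhdsWithin_le_nhds, ?_⟩
      have h3 : S ∈ 𝓝[≠] t0 := mem_nhdsWithin_of_mem_nhds (hS.mem_nhds ht0)
      filter_upwards [h3, self_mem_nhdsWithin] with t ht hne
      exact fun h => hne (hinj ht ht0 h)
    refine h2.frequently (Filter.Eventually.frequently ?_)
    have h3 : S ∈ 𝓝[≠] t0 := mem_nhdsWithin_of_mem_nhds (hS.mem_nhds ht0)
    filter_upwards [h3] with t ht
    rw [eval_rename]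
    have h4 : (ev4 L lam (p t)) ∘ e = fun o : Option κ => o.elim t fun y => f y t := by
      funext o
      exact (hf t ht o).symm
    rw [h4]
    exact hP t ht
  exact rename_injective e he (by rw [h1, map_zero])

/-- `exp (λ_l z)`, `℘ (z)`, `ζ (z)` -/
noncomputable def fA {r : ℕ} (L : PeriodPair) (lam : Fin r → ℂ) (w : Fin r ⊕ Fin 2) (z : ℂ) : ℂ :=
  w.elim (fun l => Complex.exp (lam l * z)) ![L.weierstrassP z, zeta L z]

theorem fA_indep {r : ℕ} (L : PeriodPair) (lam : Fin r → ℂ)
    (hlam : ∀ c : Fin r → ℤ, ∑ l, (c l : ℂ) * lam l = 0 → c = 0) : AIndepS (fA L lam) (L.lattice : Set ℂ)ᶜ := by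
  refine indep_of_inv L lam hlam _ _ (isOpen_compl L) ⟨_, L.ω₁_div_two_notMem_lattice⟩ id continuousOn_id
    (Set.injOn_id _) (fun t ht => ht) (fun o => o.elim (Sum.inr 0) (Sum.elim Sum.inl fun i => Sum.inr i.succ)) ?_ ?_
  · rintro (_ | l | i) (_ | l' | i') h
    · rfl
    · simp at h
    · simp only [Option.elim_none, Option.elim_some, Sum.elim_inr, Sum.inr.injEq] at h
      exact absurd h.symm (Fin.succ_ne_zero i')
    · simp at h
    · simp only [Option.elim_some, Sum.elim_inl, Sum.inl.injEq] at h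
      rw [h]
    · simp at h
    · simp only [Option.elim_none, Option.elim_some, Sum.elim_inr, Sum.inr.injEq] at h
      exact absurd h (Fin.succ_ne_zero i)
    · simp at h
    · simp only [Option.elim_some, Sum.elim_inr, Sum.inr.injEq, Fin.succ_inj] at h
      rw [h]
  · rintro t - (_ | l | i)
    · rfl
    · rfl
    · fin_cases i <;> rfl

theorem fA_an {r : ℕ} (L : PeriodPair) (lam : Fin r → ℂ) (w : Fin r ⊕ Fin 2) :
    AnalyticOnNhd ℂ (fA L lam w) (L.lattice : Set ℂ)ᶜ := by
  intro u hu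
  rcases w with l | i
  · show AnalyticAt ℂ (fun z => Complex.exp (lam l * z)) u
    exact (analyticAt_const.mul analyticAt_id).cexp
  · fin_cases i
    · exact L.analyticOnNhd_weierstrassP u hu
    · exact ((differentiableOn_zeta L).analyticOnNhd (isOpen_compl L)) u hu

end Pool.Agent.Y627.KW
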