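import Pool.Agent.Y627.KW.EllB

set_option autoImplicit false

/-!
# Elliptic logarithms, inverse functions of `ζ`
-/

open Filter Topology MvPolynomial H667R3 Pool.Agent.TH818.AP Pool.Agent.Y124 Pool.Agent.Y771.KF

namespace Pool.Agent.Y627.KW

/-- `exp (λ_l p (t))`, `p (t)`, `ζ (p (t))` -/
noncomputable def fB {r : ℕ} (L : PeriodPair) (lam : Fin r → ℂ) (p : ℂ → ℂ) (w : Fin r ⊕ Fin 2) (t : ℂ) : ℂ :=
  w.elim (fun l => Complex.exp (lam l * p t)) ![p t, zeta L (p t)]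

theorem fB_indep {r : ℕ} (L : PeriodPair) (lam : Fin r → ℂ)
    (hlam : ∀ c : Fin r → ℤ, ∑ l, (c l : ℂ) * lam l = 0 → c = 0) (S : Set ℂ) (hS : IsOpen S) (hne : S.Nonempty)
    (p : ℂ → ℂ) (hp : AnalyticOnNhd ℂ p S) (hpL : ∀ t ∈ S, p t ∉ L.lattice)
    (hpt : ∀ t ∈ S, L.weierstrassP (p t) = t) : AIndepS (fB L lam p) S := by
  refine indep_of_inv L lam hlam _ _ hS hne p hp.continuousOn ?_ hpL
    (fun o => o.elim (Sum.inr 1) (Sum.elim Sum.inl fun i => if i = 0 then Sum.inr 0 else Sum.inr 2)) ?_ ?_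
  · intro t ht t' ht' h
    rw [← hpt t ht, ← hpt t' ht', h]
  · rintro (_ | l | i) (_ | l' | i') h
    · rfl
    · simp at h
    · fin_cases i' <;> simp at h
    · simp at h
    · simp only [Option.elim_some, Sum.elim_inl, Sum.inl.injEq] at h
      rw [h]
    · fin_cases i' <;> simp at h
    · fin_cases i <;> simp at h
    · fin_cases i <;> simp at h
    · fin_cases i <;> fin_cases i' <;> simp at h <;> rfl
  · rintro t ht (_ | l | i)
    · exact (hpt t ht).symm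
    · rfl
    · fin_cases i <;> rfl

theorem fB_an {r : ℕ} (L : PeriodPair) (lam : Fin r → ℂ) (S : Set ℂ) (p : ℂ → ℂ) (hp : AnalyticOnNhd ℂ p S)
    (hpL : ∀ t ∈ S, p t ∉ L.lattice) (w : Fin r ⊕ Fin 2) : AnalyticOnNhd ℂ (fB L lam p w) S := by
  intro u hu
  rcases w with l | i
  · show AnalyticAt ℂ (fun z => Complex.exp (lam l * p z)) u
    exact (analyticAt_const.mul (hp u hu)).cexp
  · fin_cases i
    · exact hp u hu
    · show AnalyticAt ℂ (fun z => zeta L (p z)) u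
      exact AnalyticAt.comp (((differentiableOn_zeta L).analyticOnNhd (isOpen_compl L)) (p u) (hpL u hu)) (hp u hu)

/-- the function `p` alone, when `℘ (p (t)) = t` or `ζ (p (t)) = t` -/
theorem p_indep (L : PeriodPair) (S : Set ℂ) (hS : IsOpen S) (hne : S.Nonempty)
    (p : ℂ → ℂ) (hp : AnalyticOnNhd ℂ p S) (hpL : ∀ t ∈ S, p t ∉ L.lattice)
    (hpt : (∀ t ∈ S, L.weierstrassP (p t) = t) ∨ (∀ t ∈ S, zeta L (p t) = t)) :
    AIndepS (fun _ : Unit => p) S := by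
  rcases hpt with hpt | hpt
  · refine indep_of_inv L (fun l : Fin 0 => l.elim0) (fun c _ => funext fun l => l.elim0) _ _ hS hne p
      hp.continuousOn ?_ hpL (fun o => o.elim (Sum.inr 1) fun _ => Sum.inr 0) ?_ ?_
    · intro t ht t' ht' h
      rw [← hpt t ht, ← hpt t' ht', h]
    · rintro (_ | _) (_ | _) h
      · rfl
      · simp at h
      · simp at h
      · rfl
    · rintro t ht (_ | _)
      · exact (hpt t ht).symm
      · rfl
  · refine indep_of_inv L (fun l : Fin 0 => l.elim0) (fun c _ => funext fun l => l.elim0) _ _ hS hne p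
      hp.continuousOn ?_ hpL (fun o => o.elim (Sum.inr 2) fun _ => Sum.inr 0) ?_ ?_
    · intro t ht t' ht' h
      rw [← hpt t ht, ← hpt t' ht', h]
    · rintro (_ | _) (_ | _) h
      · rfl
      · simp at h
      · simp at h
      · rfl
    · rintro t ht (_ | _)
      · exact (hpt t ht).symm
      · rfl

/-- a logarithm -/
theorem l_indep (S : Set ℂ) (hS : IsOpen S) (hne : S.Nonempty) (l : ℂ → ℂ) (hl : AnalyticOnNhd ℂ l S)
    (hlt : ∀ t ∈ S, Complex.exp (l t) = t) : AIndepS (fun _ : Unit => l) S := by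
  classical
  set L : PeriodPair := sq 1 one_ne_zero with hL
  have hinj : Set.InjOn l S := by
    intro t ht t' ht' h
    rw [← hlt t ht, ← hlt t' ht', h]
  -- the points where the value is not in the lattice
  have hne' : ∃ t ∈ S, l t ∉ L.lattice := by
    by_contra hcon
    push Not at hcon
    obtain ⟨t0, ht0⟩ := hne
    have h1 : ∀ᶠ t in 𝓝[≠] t0, l t ∈ ((L.lattice : Set ℂ) \ {l t0})ᶜ := by
      have h2 := (hl.continuousOn.continuousAt (hS.mem_nhds ht0)).tendsto.mono_left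
        (nhdsWithin_le_nhds (s := ({t0}ᶜ : Set ℂ)))
      exact h2.eventually (L.compl_lattice_sdiff_singleton_mem_nhds (l t0))
    have h3 : S ∈ 𝓝[≠] t0 := mem_nhdsWithin_of_mem_nhds (hS.mem_nhds ht0)
    obtain ⟨t, ⟨h4, h5⟩, h6⟩ := ((h1.and h3).and self_mem_nhdsWithin).exists
    apply h6
    by_contra hne
    exact h4 ⟨hcon t h5, fun h => hne (hinj h5 ht0 h)⟩
  have hopen : IsOpen (S ∩ l ⁻¹' (L.lattice : Set ℂ)ᶜ) :=
    hl.continuousOn.isOpen_inter_preimage hS (isOpen_compl L)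
  have h1 : AIndepS (fun _ : Unit => l) (S ∩ l ⁻¹' (L.lattice : Set ℂ)ᶜ) := by
    refine indep_of_inv L (fun _ : Fin 1 => (1 : ℂ)) ?_ _ _ hopen ?_ l
      (hl.continuousOn.mono Set.inter_subset_left) (hinj.mono Set.inter_subset_left) (fun t ht => ht.2)
      (fun o => o.elim (Sum.inl 0) fun _ => Sum.inr 0) ?_ ?_
    · intro c hc
      rw [Fin.sum_univ_one, mul_one] at hc
      funext i
      rw [Subsingleton.elim i 0]
      exact_mod_cast hc
    · obtain ⟨t, ht, ht2⟩ := hne'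
      exact ⟨t, ht, ht2⟩
    · rintro (_ | _) (_ | _) h
      · rfl
      · simp at h
      · simp at h
      · rfl
    · rintro t ht (_ | _)
      · show t = Complex.exp (1 * l t)
        rw [one_mul, hlt t ht.1]
      · rfl
  intro P hP
  exact h1 P fun t ht => hP t ht.1

/-! ### one function of each variable -/

open Height Height.AdmissibleAbsValues

variable {k : Type} [Field k] [NumberField k]

/-- the numbers `π` and `f_j (x_j)` -/
noncomputable def num1 (σ : k →+* ℂ) {n : ℕ} (f : Fin n → ℂ → ℂ) (x : Fin n → k) (w : Option (Fin n)) : ℂ :=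
  w.elim (Real.pi : ℂ) fun j => f j (σ (x j))

/-- the exceptional tuples -/
def Exc1 (σ : k →+* ℂ) {n : ℕ} (d : ℕ) (f : Fin n → ℂ → ℂ) (K : Fin n → Set ℂ) (A B T : ℝ) : Set (Fin n → k) :=
  {x | (∀ j, σ (x j) ∈ K j ∧ mulHeight₁ (x j) ≤ T) ∧
    ∃ P : MvPolynomial (Option (Fin n)) k, P ≠ 0 ∧ (∀ i, P.degreeOf i ≤ d) ∧
      (∀ e, mulHeight₁ (P.coeff e) ≤ T ^ A) ∧ ‖eval₂ σ (num1 σ f x) P‖ ≤ T ^ (-B)}

theorem main1 (σ : k →+* ℂ) (n d : ℕ) (hn : 1 ≤ n)
    (f : Fin n → ℂ → ℂ) (S K : Fin n → Set ℂ) (hS : ∀ j, IsPreconnected (S j))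
    (hK : ∀ j, IsCompact (K j)) (hKS : ∀ j, K j ⊆ S j)
    (han : ∀ j, AnalyticOnNhd ℂ (f j) (S j)) (hind : ∀ j, AIndepS (fun _ : Unit => f j) (S j))
    (A ε : ℝ) (hε : 0 < ε) :
    ∃ (D : ℕ) (B C : ℝ), ∀ T : ℝ, 1 ≤ T →
      (∃ Φ : Finset (MvPolynomial (Fin n) k), (Φ.card : ℝ) ≤ C * T ^ ε ∧ (∀ R ∈ Φ, R ≠ 0 ∧ R.totalDegree ≤ D) ∧
        ∀ x ∈ Exc1 σ d f K A B T, ∃ R ∈ Φ, eval x R = 0) ∧ (Exc1 σ d f K A B T).Finite ∧
      ((Exc1 σ d f K A B T).ncard : ℝ) ≤ C * T ^ ε * ({x : k | mulHeight₁ x ≤ T}.ncard : ℝ) ^ (n - 1) := by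
  classical
  have hnn : Nonempty (Fin n) := ⟨⟨0, hn⟩⟩
  obtain ⟨D, B, C, hC, hcov⟩ := stdK (𝕜 := ℂ) σ σ (fun a => rfl) (fun j (_ : Unit) => f j)
    (fun _ : Unit => Real.pi) S K hS hKS hK (fun j _ => han j) hind goodXi_pi d A ε hε
  have hsub : ∀ T, Exc1 σ d f K A B T ⊆
      ExcK σ (fun j (_ : Unit) => f j) (fun _ : Unit => Real.pi) K d A B T := by
    rintro T x ⟨hx, P, hP0, hPd, hPc, hPs⟩
    let e : Option (Fin n) ≃ (Fin n × Unit) ⊕ Unit :=
      { toFun := fun o => o.elim (Sum.inr ()) fun j => Sum.inl (j, ())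
        invFun := Sum.elim (fun c => some c.1) fun _ => none
        left_inv := by
          intro o
          cases o <;> rfl
        right_inv := by
          rintro (⟨j, ⟨⟩⟩ | ⟨⟩) <;> rfl }
    refine ExcK_of_rename e σ _ _ _ d A B T x hx (num1 σ f x) ?_ P hP0 hPd hPc hPs
    intro w
    cases w with
    | none => rfl
    | some w => rfl
  obtain ⟨C', hC'⟩ := finish hn ε D C hC (fun T => Exc1 σ d f K A B T) (fun T _ t ht j => (ht.1 j).2)
    (fun T hT => (hcov T hT).mono le_rfl le_rfl (hsub T))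
  exact ⟨D, B, C', hC'⟩

end Pool.Agent.Y627.KW
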