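import Pool.Agent.Y627.KW.Iter
import Pool.Agent.TH659.AQ.Grow

set_option autoImplicit false

/-!
# Gamma functions and exponentials
-/

open Filter Topology Height Height.AdmissibleAbsValues MvPolynomial Pool.Agent.Y124 Pool.Agent.Y771.KF
  Pool.Agent.TH21.MS Pool.Agent.TH659.AQ

namespace Pool.Agent.Y627.KW

/-- the functions `Γ (α_i t + γ_i)`, `exp (λ_l t)` -/
noncomputable def ug {p r : ℕ} (α γ : Fin p → ℝ) (lam : Fin r → ℝ) (w : Fin p ⊕ Fin r) (t : ℝ) : ℝ :=
  w.elim (fun i => Real.Gamma (α i * t + γ i)) fun l => Real.exp (lam l * t)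

/-- the same for a complex variable -/
noncomputable def cg {p r : ℕ} (α γ : Fin p → ℝ) (lam : Fin r → ℝ) (w : Fin p ⊕ Fin r) (z : ℂ) : ℂ :=
  w.elim (fun i => Complex.Gamma (α i * z + γ i)) fun l => Complex.exp (lam l * z)

/-- the points where no `α_i z + γ_i` is a pole -/
def Sg {p : ℕ} (α γ : Fin p → ℝ) : Set ℂ := {z | ∀ i (m : ℕ), (α i : ℂ) * z + γ i ≠ -m}

/-- no multiplicative relation with respect to the growth -/
def Nondeg {p r : ℕ} (α : Fin p → ℝ) (lam : Fin r → ℝ) : Prop :=
  ∀ (m : Fin p → ℤ) (c : Fin r → ℤ), ∑ i, (m i : ℝ) * α i = 0 →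
    ∑ i, (m i : ℝ) * (α i * Real.log (α i)) + ∑ l, (c l : ℝ) * lam l = 0 → m = 0 ∧ c = 0

theorem ug_LB {p r : ℕ} (α γ : Fin p → ℝ) (lam : Fin r → ℝ) (hα : ∀ i, 0 < α i) (hN : Nondeg α lam) :
    ∃ h : ℝ → ℝ, LB (ug α γ lam) h := by
  have hx : ∀ i, Tendsto (fun t : ℝ => α i * t + γ i) atTop atTop := fun i =>
    tendsto_atTop_add_const_right _ _ (tendsto_id.const_mul_atTop (hα i))
  have hlogΓ : ∀ i t, Real.log (Real.Gamma (α i * t + γ i)) =
      α i * (t * Real.log t) + (α i * Real.log (α i) - α i) * t + TH659.AQ.RR (α i) (γ i) t := by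
    intro i t
    unfold TH659.AQ.RR
    ring
  refine ⟨fun t => t * Real.log t + t, LB_of_growth _ _ ?_ ?_ ?_ ?_ ?_⟩
  · rintro (i | l)
    · filter_upwards [(hx i).eventually_gt_atTop 0] with t ht
      exact Real.Gamma_pos_of_pos ht
    · exact Eventually.of_forall fun t => Real.exp_pos _
  · rintro (i | l)
    · obtain ⟨t0, ht0⟩ := ((hx i).eventually_gt_atTop 0).exists_forall_of_atTop
      refine ⟨t0, fun t ht => ?_⟩
      have h1 : ContinuousAt Real.Gamma (α i * t + γ i) := (gamma_an (ht0 t ht)).continuousAt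
      have h2 : ContinuousAt (fun t => α i * t + γ i) t := by fun_prop
      exact (ContinuousAt.comp (f := fun t => α i * t + γ i) h1 h2).continuousWithinAt
    · refine ⟨0, Continuous.continuousOn ?_⟩
      show Continuous fun t => Real.exp (lam l * t)
      fun_prop
  · intro c hc
    set A : ℝ := ∑ i, (c (Sum.inl i) : ℝ) * α i with hA
    set B : ℝ := ∑ i, (c (Sum.inl i) : ℝ) * (α i * Real.log (α i)) + ∑ l, (c (Sum.inr l) : ℝ) * lam l with hB
    have hF : ∀ t, ∑ w, (c w : ℝ) * Real.log (ug α γ lam w t) = A * (t * Real.log t) + (B - A) * t +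
        ∑ i, (c (Sum.inl i) : ℝ) * TH659.AQ.RR (α i) (γ i) t := by
      intro t
      rw [Fintype.sum_sum_type]
      simp only [ug, Sum.elim_inl, Sum.elim_inr, Real.log_exp, hlogΓ]
      rw [hA, hB, Finset.sum_mul, sub_mul, add_mul, Finset.sum_mul, Finset.sum_mul, Finset.sum_mul]
      simp only [mul_add, mul_sub, sub_mul, add_mul, Finset.sum_add_distrib, Finset.sum_sub_distrib]
      have e1 : ∑ x, (c (Sum.inl x) : ℝ) * (α x * (t * Real.log t)) = ∑ x, (c (Sum.inl x) : ℝ) * α x * (t * Real.log t) :=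
        Finset.sum_congr rfl fun x _ => by ring
      have e2 : ∑ x, (c (Sum.inl x) : ℝ) * (α x * Real.log (α x) * t) =
          ∑ x, (c (Sum.inl x) : ℝ) * (α x * Real.log (α x)) * t :=
        Finset.sum_congr rfl fun x _ => by ring
      have e3 : ∑ x, (c (Sum.inl x) : ℝ) * (α x * t) = ∑ x, (c (Sum.inl x) : ℝ) * α x * t :=
        Finset.sum_congr rfl fun x _ => by ring
      have e4 : ∑ x, (c (Sum.inr x) : ℝ) * (lam x * t) = ∑ x, (c (Sum.inr x) : ℝ) * lam x * t :=
        Finset.sum_congr rfl fun x _ => by ring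
      rw [e1, e2, e3, e4]
      ring
    have hrest : Tendsto (fun t : ℝ => (∑ i, (c (Sum.inl i) : ℝ) * TH659.AQ.RR (α i) (γ i) t) / t) atTop (𝓝 0) := by
      have h1 : ∀ i ∈ (Finset.univ : Finset (Fin p)),
          Tendsto (fun t : ℝ => (c (Sum.inl i) : ℝ) * (TH659.AQ.RR (α i) (γ i) t / t)) atTop (𝓝 0) := by
        intro i _
        have := (rr_small (α i) (γ i) (hα i)).const_mul (c (Sum.inl i) : ℝ)
        rwa [mul_zero] at this
      have h7 := tendsto_finsetSum _ h1
      rw [Finset.sum_const_zero] at h7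
      refine h7.congr fun t => ?_
      rw [Finset.sum_div]
      exact Finset.sum_congr rfl fun j _ => by ring
    -- a positive lower bound of the quotient by `t`
    have hlow : ∃ δ : ℝ, 0 < δ ∧ ∀ᶠ t : ℝ in atTop,
        δ ≤ |A * Real.log t + (B - A) + (∑ i, (c (Sum.inl i) : ℝ) * TH659.AQ.RR (α i) (γ i) t) / t| := by
      by_cases hA0 : A = 0
      · have hB0 : B ≠ 0 := by
          intro hB0
          obtain ⟨h1, h2⟩ := hN (fun i => c (Sum.inl i)) (fun l => c (Sum.inr l)) hA0 hB0
          apply hc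
          funext w
          rcases w with i | l
          · exact congrFun h1 i
          · exact congrFun h2 l
        refine ⟨|B| / 2, by positivity, ?_⟩
        have h1 : Tendsto (fun t : ℝ => |A * Real.log t + (B - A) +
            (∑ i, (c (Sum.inl i) : ℝ) * TH659.AQ.RR (α i) (γ i) t) / t|) atTop (𝓝 |B|) := by
          have := (hrest.const_add B).abs
          rw [add_zero] at this
          refine this.congr fun t => ?_
          rw [hA0]
          congr 1
          ring
        have h2 : |B| / 2 < |B| := half_lt_self (abs_pos.2 hB0)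
        exact (h1.eventually_const_lt h2).mono fun t ht => ht.le
      · refine ⟨1, one_pos, ?_⟩
        have h1 : Tendsto (fun t : ℝ => |A| * Real.log t) atTop atTop :=
          Real.tendsto_log_atTop.const_mul_atTop (abs_pos.2 hA0)
        filter_upwards [h1.eventually_ge_atTop (|B - A| + 2), hrest.abs.eventually_lt_const
          (show |(0 : ℝ)| < 1 by norm_num), eventually_ge_atTop (1 : ℝ)] with t h2 h3 h4
        have h5 : |A * Real.log t| = |A| * Real.log t := by
          rw [abs_mul, abs_of_nonneg (Real.log_nonneg h4)]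
        generalize (∑ i, (c (Sum.inl i) : ℝ) * TH659.AQ.RR (α i) (γ i) t) / t = R at h3 ⊢
        have h6 := abs_sub_abs_le_abs_sub (A * Real.log t) (-((B - A) + R))
        rw [abs_neg, sub_neg_eq_add] at h6
        have h7 := abs_add_le (B - A) R
        have h8 : A * Real.log t + ((B - A) + R) = A * Real.log t + (B - A) + R := by ring
        rw [h8] at h6
        linarith
    obtain ⟨δ, hδ, hlow⟩ := hlow
    refine tendsto_atTop_mono' _ ?_ (id_div_log.const_mul_atTop hδ)
    filter_upwards [hlow, eventually_gt_atTop (1 : ℝ)] with t h1 h2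
    have ht0 : 0 < t := by linarith
    have hl := Real.log_pos h2
    rw [hF]
    have h3 : A * (t * Real.log t) + (B - A) * t + ∑ i, (c (Sum.inl i) : ℝ) * TH659.AQ.RR (α i) (γ i) t =
        (A * Real.log t + (B - A) + (∑ i, (c (Sum.inl i) : ℝ) * TH659.AQ.RR (α i) (γ i) t) / t) * t := by
      field_simp
    rw [h3, abs_mul, abs_of_pos ht0, ← mul_div_assoc]
    exact div_le_div_of_nonneg_right (mul_le_mul_of_nonneg_right h1 ht0.le) hl.le
  · filter_upwards [eventually_ge_atTop (1 : ℝ)] with t ht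
    have h1 := Real.log_nonneg ht
    have h2 := Real.log_le_sub_one_of_pos (by linarith : (0 : ℝ) < t)
    nlinarith
  · rintro (i | l)
    · refine ⟨|α i| + |α i * Real.log (α i) - α i| + 1, ?_⟩
      filter_upwards [(rr_small (α i) (γ i) (hα i)).abs.eventually_lt_const (show |(0 : ℝ)| < 1 by norm_num),
        eventually_ge_atTop (1 : ℝ)] with t h1 h2
      have ht0 : 0 < t := by linarith
      have hl := Real.log_nonneg h2
      show |Real.log (Real.Gamma (α i * t + γ i))| ≤ _
      rw [hlogΓ]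
      have h3 : |TH659.AQ.RR (α i) (γ i) t| ≤ t := by
        rw [abs_div, abs_of_pos ht0, div_lt_one ht0] at h1
        exact h1.le
      have h4 := abs_add_three (α i * (t * Real.log t)) ((α i * Real.log (α i) - α i) * t) (TH659.AQ.RR (α i) (γ i) t)
      have h5 : |α i * (t * Real.log t)| = |α i| * (t * Real.log t) := by
        rw [abs_mul, abs_of_nonneg (mul_nonneg ht0.le hl)]
      have h6 : |(α i * Real.log (α i) - α i) * t| = |α i * Real.log (α i) - α i| * t := by
        rw [abs_mul, abs_of_pos ht0]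
      rw [h5, h6] at h4
      have h7 : 0 ≤ t * Real.log t := mul_nonneg ht0.le hl
      have h8 := abs_nonneg (α i)
      have h9 := abs_nonneg (α i * Real.log (α i) - α i)
      nlinarith [mul_nonneg h8 ht0.le, mul_nonneg h9 h7]
    · refine ⟨|lam l|, ?_⟩
      filter_upwards [eventually_ge_atTop (1 : ℝ)] with t h2
      have ht0 : 0 < t := by linarith
      have hl := Real.log_nonneg h2
      show |Real.log (Real.exp (lam l * t))| ≤ _
      rw [Real.log_exp, abs_mul, abs_of_pos ht0]
      refine mul_le_mul_of_nonneg_left ?_ (abs_nonneg _)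
      have := mul_nonneg ht0.le hl
      linarith

theorem cg_an {p r : ℕ} (α γ : Fin p → ℝ) (lam : Fin r → ℝ) (w : Fin p ⊕ Fin r) :
    AnalyticOnNhd ℂ (cg α γ lam w) (Sg α γ) := by
  intro z hz
  rcases w with i | l
  · have h0 : AnalyticAt ℂ Complex.Gamma ((α i : ℂ) * z + γ i) :=
      (Meromorphic.Gamma _).analyticAt (Complex.continuousAt_Gamma _ fun m => hz i m)
    have h1 : AnalyticAt ℂ (fun z : ℂ => (α i : ℂ) * z + γ i) z :=
      (analyticAt_const.mul analyticAt_id).add analyticAt_const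
    exact AnalyticAt.comp (g := Complex.Gamma) (f := fun z : ℂ => (α i : ℂ) * z + γ i) h0 h1
  · show AnalyticAt ℂ (fun z => Complex.exp (lam l * z)) z
    exact (analyticAt_const.mul analyticAt_id).cexp

theorem Sg_pre {p : ℕ} (α γ : Fin p → ℝ) (hα : ∀ i, 0 < α i) : IsPreconnected (Sg α γ) := by
  have h1 : Sg α γ = (⋃ i, ⋃ m : ℕ, {(-(m : ℂ) - γ i) / α i})ᶜ := by
    ext z
    simp only [Sg, Set.mem_ofPred_eq, Set.mem_compl_iff, Set.mem_iUnion, Set.mem_singleton_iff, not_exists]
    refine forall_congr' fun i => forall_congr' fun m => not_congr ?_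
    have ha : (α i : ℂ) ≠ 0 := by exact_mod_cast (hα i).ne'
    rw [eq_div_iff ha]
    constructor
    · intro h
      rw [← h]
      ring
    · intro h
      rw [mul_comm (α i : ℂ) z, h]
      ring
  rw [h1]
  have hc : (⋃ i, ⋃ m : ℕ, {(-(m : ℂ) - γ i) / (α i : ℂ)}).Countable :=
    Set.countable_iUnion fun i => Set.countable_iUnion fun m => Set.countable_singleton _
  refine (hc.isPathConnected_compl_of_one_lt_rank ?_).isConnected.isPreconnected
  rw [Complex.rank_real_complex]
  exact Nat.one_lt_ofNat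

theorem cg_indep {p r : ℕ} (α γ : Fin p → ℝ) (lam : Fin r → ℝ) (hα : ∀ i, 0 < α i) (hN : Nondeg α lam) :
    AIndepS (cg α γ lam) (Sg α γ) := by
  classical
  obtain ⟨h, hLB⟩ := ug_LB α γ lam hα hN
  have hx : ∀ i, Tendsto (fun t : ℝ => α i * t + γ i) atTop atTop := fun i =>
    tendsto_atTop_add_const_right _ _ (tendsto_id.const_mul_atTop (hα i))
  obtain ⟨a0, ha0⟩ := (eventually_all.2 fun i => (hx i).eventually_gt_atTop 0).exists_forall_of_atTop
  refine indep_of_LB (ug α γ lam) h a0 ?_ hLB _ _ ?_ ?_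
  · rintro (i | l) t ht
    · exact gf_an α γ i (ha0 t ht i)
    · show AnalyticAt ℝ (fun t => Real.exp (lam l * t)) t
      exact (analyticAt_const.mul analyticAt_id).rexp
  · intro t ht i m hm
    have h1 := ha0 t ht i
    have h2 : α i * t + γ i = -(m : ℝ) := by exact_mod_cast hm
    have h3 : (0 : ℝ) ≤ m := Nat.cast_nonneg m
    linarith
  · rintro (i | l) t ht
    · show Complex.Gamma (α i * (t : ℂ) + γ i) = ((Real.Gamma (α i * t + γ i) : ℝ) : ℂ)
      rw [← Complex.Gamma_ofReal]
      push_cast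
      rfl
    · show Complex.exp (lam l * (t : ℂ)) = ((Real.exp (lam l * t) : ℝ) : ℂ)
      push_cast
      rfl

end Pool.Agent.Y627.KW
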