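import Pool.Agent.Y627.KW.Main

set_option autoImplicit false

/-!
# Iterated exponentials
-/

open Filter Topology Height Height.AdmissibleAbsValues MvPolynomial Pool.Agent.Y124 Pool.Agent.Y771.KF
  Pool.Agent.TH21.MS

namespace Pool.Agent.Y627.KW

theorem iter_ge (n : ℕ) (t : ℝ) : t ≤ Real.exp^[n] t := by
  induction n with
  | zero => exact le_rfl
  | succ n ih =>
    rw [Function.iterate_succ_apply']
    have := Real.add_one_le_exp (Real.exp^[n] t)
    linarith

theorem iter_tendsto (n : ℕ) : Tendsto (fun t => Real.exp^[n] t) atTop atTop :=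
  tendsto_atTop_mono (iter_ge n) tendsto_id

theorem iter_mono {m n : ℕ} (h : m ≤ n) (t : ℝ) : Real.exp^[m] t ≤ Real.exp^[n] t := by
  obtain ⟨r, rfl⟩ := Nat.exists_eq_add_of_le' h
  rw [Function.iterate_add_apply]
  exact iter_ge r _

theorem iter_ratio {i j : ℕ} (h : i < j) :
    Tendsto (fun t => Real.exp^[i] t / Real.exp^[j] t) atTop (𝓝 0) := by
  have h1 : Tendsto (fun s : ℝ => s / Real.exp s) atTop (𝓝 0) := by
    have := Real.tendsto_pow_mul_exp_neg_atTop_nhds_zero 1
    refine this.congr fun s => ?_
    rw [pow_one, Real.exp_neg, div_eq_mul_inv]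
  have h2 := h1.comp (iter_tendsto i)
  have hpos : ∀ᶠ t in atTop, 0 < Real.exp^[i] t := (iter_tendsto i).eventually_gt_atTop 0
  refine squeeze_zero' ?_ ?_ h2
  · filter_upwards [hpos] with t ht
    exact div_nonneg ht.le (ht.le.trans (iter_mono h.le t))
  · filter_upwards [hpos] with t ht
    simp only [Function.comp]
    have h3 : Real.exp (Real.exp^[i] t) ≤ Real.exp^[j] t := by
      have := iter_mono (Nat.succ_le_of_lt h) t
      rwa [Function.iterate_succ_apply'] at this
    exact div_le_div_of_nonneg_left ht.le (Real.exp_pos _) h3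

theorem id_div_log : Tendsto (fun t : ℝ => t / Real.log t) atTop atTop := by
  have h1 : Tendsto (fun t : ℝ => Real.log t / t) atTop (𝓝 0) := by
    have := Real.isLittleO_log_id_atTop.tendsto_div_nhds_zero
    exact this
  have h2 : ∀ᶠ t : ℝ in atTop, 0 < Real.log t / t := by
    filter_upwards [eventually_gt_atTop (1 : ℝ)] with t ht
    exact div_pos (Real.log_pos ht) (by linarith)
  have h3 := (tendsto_nhdsWithin_iff.2 ⟨h1, h2⟩).inv_tendsto_nhdsGT_zero
  refine h3.congr fun t => ?_
  rw [Pi.inv_apply, inv_div]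

theorem iter_div_log (i : ℕ) : Tendsto (fun t => Real.exp^[i] t / Real.log t) atTop atTop := by
  refine tendsto_atTop_mono' _ ?_ id_div_log
  filter_upwards [eventually_gt_atTop (1 : ℝ)] with t ht
  exact div_le_div_of_nonneg_right (iter_ge i t) (Real.log_pos ht).le

/-- the iterated exponentials `exp^[i + 1]`, `i < m` -/
noncomputable def ue (m : ℕ) (i : Fin m) (t : ℝ) : ℝ := Real.exp^[(i : ℕ) + 1] t

theorem ue_log (m : ℕ) (i : Fin m) (t : ℝ) : Real.log (ue m i t) = Real.exp^[(i : ℕ)] t := by
  unfold ue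
  rw [Function.iterate_succ_apply', Real.log_exp]

theorem iter_an (n : ℕ) (t : ℝ) : AnalyticAt ℝ (fun t => Real.exp^[n] t) t := by
  induction n with
  | zero => exact analyticAt_id
  | succ n ih =>
    have h : (fun t => Real.exp^[n + 1] t) = fun t => Real.exp (Real.exp^[n] t) := by
      funext t
      rw [Function.iterate_succ_apply']
    rw [h]
    exact ih.rexp

theorem iter_anC (n : ℕ) (t : ℂ) : AnalyticAt ℂ (fun t => Complex.exp^[n] t) t := by
  induction n with
  | zero => exact analyticAt_id
  | succ n ih =>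
    have h : (fun t => Complex.exp^[n + 1] t) = fun t => Complex.exp (Complex.exp^[n] t) := by
      funext t
      rw [Function.iterate_succ_apply']
    rw [h]
    exact ih.cexp

theorem iter_ofReal (n : ℕ) (t : ℝ) : Complex.exp^[n] (t : ℂ) = ((Real.exp^[n] t : ℝ) : ℂ) := by
  induction n with
  | zero => rfl
  | succ n ih => rw [Function.iterate_succ_apply', ih, Function.iterate_succ_apply', Complex.ofReal_exp]

theorem ue_LB (m : ℕ) : LB (ue m) fun t => Real.exp^[m] t := by
  refine LB_of_growth _ _ ?_ ?_ ?_ ?_ ?_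
  · intro i
    refine Eventually.of_forall fun t => ?_
    unfold ue
    rw [Function.iterate_succ_apply']
    exact Real.exp_pos _
  · intro i
    refine ⟨0, fun t _ => ?_⟩
    exact (iter_an ((i : ℕ) + 1) t).continuousAt.continuousWithinAt
  · intro c hc
    simp only [ue_log]
    exact growth_chain (fun (i : Fin m) t => Real.exp^[(i : ℕ)] t) (fun i => iter_div_log i)
      (fun i j hij => iter_ratio hij) c hc
  · filter_upwards [eventually_gt_atTop (0 : ℝ)] with t ht
    have h1 := Real.log_le_sub_one_of_pos ht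
    have h2 := iter_ge m t
    linarith
  · intro i
    refine ⟨1, ?_⟩
    filter_upwards [(iter_tendsto (i : ℕ)).eventually_ge_atTop 0] with t ht
    rw [ue_log, abs_of_nonneg ht, one_mul]
    exact iter_mono i.isLt.le t

theorem ue_indep (m : ℕ) : AIndepS (fun (i : Fin m) (z : ℂ) => Complex.exp^[(i : ℕ) + 1] z) Set.univ := by
  classical
  refine indep_of_LB (ue m) _ 0 ?_ (ue_LB m) _ _ (fun t _ => Set.mem_univ _) ?_
  · intro y t _
    exact iter_an ((y : ℕ) + 1) t
  · intro y t _
    exact iter_ofReal _ t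

end Pool.Agent.Y627.KW
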