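import Pool.Agent.Y627.KW.Chain
import Pool.Agent.TH21.MS.PolyLog

set_option autoImplicit false

/-!
# Power towers
-/

open Filter Topology Height Height.AdmissibleAbsValues MvPolynomial Pool.Agent.Y124 Pool.Agent.Y771.KF
  Pool.Agent.TH21.MS

namespace Pool.Agent.Y627.KW

/-- the towers `z, z ^ z, z ^ (z ^ z), …` (principal values) -/
noncomputable def tw (z : ℂ) : ℕ → ℂ
  | 0 => z
  | n + 1 => Complex.exp (tw z n * Complex.log z)

/-- the real towers -/
noncomputable def twR (t : ℝ) : ℕ → ℝ
  | 0 => t
  | n + 1 => Real.exp (twR t n * Real.log t)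

theorem tw_ofReal {t : ℝ} (ht : 0 < t) (n : ℕ) : tw (t : ℂ) n = ((twR t n : ℝ) : ℂ) := by
  induction n with
  | zero => rfl
  | succ n ih =>
    rw [tw, twR, ih, ← Complex.ofReal_log ht.le, ← Complex.ofReal_mul, Complex.ofReal_exp]

theorem twR_an (n : ℕ) {t : ℝ} (ht : 0 < t) : AnalyticAt ℝ (fun t => twR t n) t := by
  induction n with
  | zero => exact analyticAt_id
  | succ n ih =>
    have h : (fun t => twR t (n + 1)) = fun t => Real.exp (twR t n * Real.log t) := rfl
    rw [h]
    exact (ih.mul (analyticAt_log ht)).rexp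

theorem tw_an (n : ℕ) {z : ℂ} (hz : z ∈ Complex.slitPlane) : AnalyticAt ℂ (fun z => tw z n) z := by
  induction n with
  | zero => exact analyticAt_id
  | succ n ih =>
    have h : (fun z => tw z (n + 1)) = fun z => Complex.exp (tw z n * Complex.log z) := rfl
    rw [h]
    exact (ih.mul (analyticAt_clog hz)).cexp

theorem twR_ge (n : ℕ) {t : ℝ} (ht : Real.exp 1 ≤ t) : t ≤ twR t n := by
  have ht0 : 0 < t := (Real.exp_pos 1).trans_le ht
  have hl : 1 ≤ Real.log t := by
    rw [Real.le_log_iff_exp_le ht0]
    exact ht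
  induction n with
  | zero => exact le_rfl
  | succ n ih =>
    rw [twR]
    have h1 := Real.add_one_le_exp (twR t n * Real.log t)
    have h2 : twR t n ≤ twR t n * Real.log t := le_mul_of_one_le_right (ht0.le.trans ih) hl
    linarith

theorem twR_step (n : ℕ) {t : ℝ} (ht : Real.exp 1 ≤ t) : Real.exp (twR t n) ≤ twR t (n + 1) := by
  have ht0 : 0 < t := (Real.exp_pos 1).trans_le ht
  have hl : 1 ≤ Real.log t := by
    rw [Real.le_log_iff_exp_le ht0]
    exact ht
  rw [twR]
  exact Real.exp_le_exp.2 (le_mul_of_one_le_right (ht0.le.trans (twR_ge n ht)) hl)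

theorem twR_mono {i j : ℕ} (h : i ≤ j) {t : ℝ} (ht : Real.exp 1 ≤ t) : twR t i ≤ twR t j := by
  induction j, h using Nat.le_induction with
  | base => exact le_rfl
  | succ j _ ih =>
    have h1 := twR_step j ht
    have h2 := Real.add_one_le_exp (twR t j)
    linarith

theorem twR_tendsto (n : ℕ) : Tendsto (fun t => twR t n) atTop atTop := by
  refine tendsto_atTop_mono' _ ?_ tendsto_id
  filter_upwards [eventually_ge_atTop (Real.exp 1)] with t ht
  exact twR_ge n ht

theorem twR_ratio {i j : ℕ} (h : i < j) : Tendsto (fun t => twR t i / twR t j) atTop (𝓝 0) := by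
  have h1 : Tendsto (fun s : ℝ => s / Real.exp s) atTop (𝓝 0) := by
    have := Real.tendsto_pow_mul_exp_neg_atTop_nhds_zero 1
    refine this.congr fun s => ?_
    rw [pow_one, Real.exp_neg, div_eq_mul_inv]
  have h2 := h1.comp (twR_tendsto i)
  have hpos : ∀ᶠ t in atTop, 0 < twR t i := (twR_tendsto i).eventually_gt_atTop 0
  refine squeeze_zero' ?_ ?_ h2
  · filter_upwards [hpos, eventually_ge_atTop (Real.exp 1)] with t ht ht1
    exact div_nonneg ht.le (ht.le.trans (twR_mono h.le ht1))
  · filter_upwards [hpos, eventually_ge_atTop (Real.exp 1)] with t ht ht1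
    simp only [Function.comp]
    exact div_le_div_of_nonneg_left ht.le (Real.exp_pos _)
      ((twR_step i ht1).trans (twR_mono (Nat.succ_le_of_lt h) ht1))

/-- the functions `log t`, `t ^ t`, `t ^ (t ^ t)`, … -/
noncomputable def ut (m : ℕ) (i : Option (Fin m)) (t : ℝ) : ℝ :=
  i.elim (Real.log t) fun k => twR t ((k : ℕ) + 1)

theorem ut_LB (m : ℕ) : ∃ h : ℝ → ℝ, LB (ut m) h := by
  refine ⟨_, LB_of_s (fun (k : Fin m) t => twR t ((k : ℕ) + 1)) (fun s => |s| * (1 + |twR (Real.exp s) m|)) ?_⟩
  have hlogk : ∀ (k : ℕ) (s : ℝ), Real.log (twR (Real.exp s) (k + 1)) = twR (Real.exp s) k * s := by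
    intro k s
    rw [twR, Real.log_exp, Real.log_exp]
  have hge : ∀ᶠ s : ℝ in atTop, Real.exp 1 ≤ Real.exp s := by
    filter_upwards [eventually_ge_atTop (1 : ℝ)] with s hs
    exact Real.exp_le_exp.2 hs
  -- the logarithms
  let L : Option (Fin m) → ℝ → ℝ := fun i s => i.elim s fun k => twR (Real.exp s) (k : ℕ) * s
  have hL : ∀ i s, Real.log (i.elim (Real.exp s) fun k : Fin m => twR (Real.exp s) ((k : ℕ) + 1)) = L i s := by
    intro i s
    rcases i with _ | k
    · exact Real.log_exp s
    · exact hlogk k s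
  refine LB_of_growth _ _ ?_ ?_ ?_ ?_ ?_
  · intro i
    refine Eventually.of_forall fun s => ?_
    rcases i with _ | k
    · exact Real.exp_pos _
    · exact Real.exp_pos _
  · intro i
    refine ⟨0, ?_⟩
    rcases i with _ | k
    · exact Real.continuous_exp.continuousOn
    · intro s _
      have h1 : ContinuousAt (fun t => twR t ((k : ℕ) + 1)) (Real.exp s) := (twR_an _ (Real.exp_pos s)).continuousAt
      exact (ContinuousAt.comp (f := Real.exp) h1 Real.continuous_exp.continuousAt).continuousWithinAt
  · intro c hc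
    simp only [hL]
    refine growth_chain' (fun i : Option (Fin m) => i.elim 0 fun k => (k : ℕ) + 1) ?_ L ?_ ?_ c hc
    · rintro (_ | i) (_ | j) h
      · rfl
      · simp at h
      · simp at h
      · simp only [Option.elim_some, Nat.add_right_cancel_iff] at h
        rw [Fin.ext h]
    · intro i
      rcases i with _ | k
      · exact id_div_log
      · refine tendsto_atTop_mono' _ ?_ id_div_log
        filter_upwards [eventually_gt_atTop (1 : ℝ), hge] with s hs hs2
        refine div_le_div_of_nonneg_right ?_ (Real.log_pos hs).le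
        show s ≤ twR (Real.exp s) (k : ℕ) * s
        have h1 := twR_ge (k : ℕ) hs2
        have h2 := Real.add_one_le_exp s
        have h3 : 1 ≤ twR (Real.exp s) (k : ℕ) := by linarith
        exact le_mul_of_one_le_left (by linarith) h3
    · rintro (_ | i) (_ | j) h
      · simp at h
      · have h1 : Tendsto (fun s => (twR (Real.exp s) (j : ℕ))⁻¹) atTop (𝓝 0) :=
          ((twR_tendsto (j : ℕ)).comp Real.tendsto_exp_atTop).inv_tendsto_atTop
        refine h1.congr' ?_
        filter_upwards [eventually_gt_atTop (0 : ℝ)] with s hs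
        show (twR (Real.exp s) (j : ℕ))⁻¹ = s / (twR (Real.exp s) (j : ℕ) * s)
        rw [div_mul_cancel_right₀ hs.ne']
      · simp at h
      · simp only [Option.elim_some] at h
        have h1 := (twR_ratio (show (i : ℕ) < (j : ℕ) by omega)).comp Real.tendsto_exp_atTop
        refine h1.congr' ?_
        filter_upwards [eventually_gt_atTop (0 : ℝ)] with s hs
        show twR (Real.exp s) (i : ℕ) / twR (Real.exp s) (j : ℕ) =
          (twR (Real.exp s) (i : ℕ) * s) / (twR (Real.exp s) (j : ℕ) * s)
        rw [mul_div_mul_right _ _ hs.ne']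
  · filter_upwards [eventually_gt_atTop (0 : ℝ)] with s hs
    have h1 := Real.log_le_sub_one_of_pos hs
    have h2 := abs_nonneg (twR (Real.exp s) m)
    rw [abs_of_pos hs]
    nlinarith
  · intro i
    refine ⟨1, ?_⟩
    filter_upwards [eventually_gt_atTop (0 : ℝ), hge] with s hs hs2
    rw [one_mul, hL]
    rcases i with _ | k
    · show |s| ≤ _
      have h2 := abs_nonneg (twR (Real.exp s) m)
      have := abs_nonneg s
      nlinarith
    · show |twR (Real.exp s) (k : ℕ) * s| ≤ _
      rw [abs_mul, mul_comm]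
      refine mul_le_mul_of_nonneg_left ?_ (abs_nonneg s)
      have h3 := twR_mono k.isLt.le hs2
      have h4 := twR_ge (k : ℕ) hs2
      have h5 := Real.exp_pos s
      rw [abs_of_pos (by linarith), abs_of_pos (by linarith)]
      linarith

theorem ut_indep (m : ℕ) : AIndepS (fun (i : Option (Fin m)) (z : ℂ) =>
    i.elim (Complex.log z) fun k => tw z ((k : ℕ) + 1)) Complex.slitPlane := by
  classical
  obtain ⟨h, hLB⟩ := ut_LB m
  refine indep_of_LB (ut m) h 1 ?_ hLB _ _ ?_ ?_
  · intro i t ht
    have ht0 : (0 : ℝ) < t := lt_of_lt_of_le one_pos ht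
    rcases i with _ | k
    · exact analyticAt_log ht0
    · exact twR_an _ ht0
  · intro t ht
    exact Complex.ofReal_mem_slitPlane.2 (by linarith)
  · intro i t ht
    rcases i with _ | k
    · exact (Complex.ofReal_log (by linarith)).symm
    · exact tw_ofReal (by linarith) _

end Pool.Agent.Y627.KW
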